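import Pool.Agent.P.MP_1ec91f_co.Harm

/-!
The squared Green correlation of two points in a positive definite set: it is monotone in the set,
supermultiplicative, and bounded below along edges.
-/

open Finset Matrix

namespace Pool.Agent.P.MP_1ec91f_co.Sq

variable {V : Type*} [Fintype V] [DecidableEq V]

/-- The hitting function of `a` in `U`. -/
noncomputable def hh (Q : Matrix V V ℝ) (U : Finset V) (a : V) : V → ℝ := harm Q (U.erase a) a

/-- The capacity of `a` in `U`. -/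
noncomputable def cc (Q : Matrix V V ℝ) (U : Finset V) (a : V) : ℝ := cap Q (U.erase a) a

/-- The squared correlation of `a` and `b` in `U`. -/
noncomputable def rho (Q : Matrix V V ℝ) (U : Finset V) (a b : V) : ℝ := hh Q U a b * hh Q U b a

variable {Q : Matrix V V ℝ} {U : Finset V}

lemma hh_spec (hU : PD Q U) (a : V) : IsHarm Q (U.erase a) a (hh Q U a) :=
  harm_spec (hU.mono (erase_subset _ _)) (notMem_erase _ _)

lemma hh_self (hU : PD Q U) (a : V) : hh Q U a a = 1 := (hh_spec hU a).1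

lemma hh_out (hU : PD Q U) {a : V} (ha : a ∈ U) {t : V} (ht : t ∉ U) : hh Q U a t = 0 :=
  (hh_spec hU a).2.1 t (fun h => ht (mem_of_mem_erase h)) fun h => ht (h ▸ ha)

lemma hh_harm (hU : PD Q U) (a : V) {t : V} (ht : t ∈ U) (hta : t ≠ a) :
    (Q *ᵥ hh Q U a) t = 0 :=
  (hh_spec hU a).2.2 t (mem_erase.2 ⟨hta, ht⟩)

lemma hh_cap (a : V) : (Q *ᵥ hh Q U a) a = cc Q U a := rfl

lemma hh_nonneg (hQ : ZM Q) (hU : PD Q U) (a t : V) : 0 ≤ hh Q U a t :=
  harm_nonneg hQ (hU.mono (erase_subset _ _)) (notMem_erase _ _) t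

lemma cc_pos (hU : PD Q U) {a : V} (ha : a ∈ U) : 0 < cc Q U a :=
  cap_pos (by rwa [insert_erase ha]) (notMem_erase _ _)

lemma BF_hh (hU : PD Q U) (a : V) {y : V → ℝ} (hy : ∀ t, t ∉ U → y t = 0) :
    BF Q y (hh Q U a) = y a * cc Q U a :=
  BF_harm (hU.mono (erase_subset _ _)) (notMem_erase _ _) fun t ht hta =>
    hy t fun h => ht (mem_erase.2 ⟨hta, h⟩)

lemma cc_le (hQ : ZM Q) (hU : PD Q U) (a : V) {y : V → ℝ} (hy : ∀ t, t ∉ U → y t = 0) :
    cc Q U a * y a ^ 2 ≤ BF Q y y :=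
  cap_le hQ (hU.mono (erase_subset _ _)) (notMem_erase _ _) fun t ht hta =>
    hy t fun h => ht (mem_erase.2 ⟨hta, h⟩)

lemma BF_hh_self (hU : PD Q U) (a : V) : BF Q (hh Q U a) (hh Q U a) = cc Q U a :=
  BF_harm_self (hU.mono (erase_subset _ _)) (notMem_erase _ _)

lemma cc_anti (hQ : ZM Q) {U' : Finset V} (hU' : PD Q U') (h : U ⊆ U') (a : V) :
    cc Q U' a ≤ cc Q U a :=
  cap_anti hQ (hU'.mono (erase_subset _ _)) (erase_subset_erase _ h) (notMem_erase _ _)

lemma hh_mono (hQ : ZM Q) {U' : Finset V} (hU' : PD Q U') (h : U ⊆ U') (a t : V) :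
    hh Q U a t ≤ hh Q U' a t :=
  harm_mono hQ (hU'.mono (erase_subset _ _)) (erase_subset_erase _ h) (notMem_erase _ _) t

lemma hh_symm (hQ : ZM Q) (hU : PD Q U) {a b : V} (ha : a ∈ U) (hb : b ∈ U) :
    hh Q U b a * cc Q U a = hh Q U a b * cc Q U b := by
  rw [← BF_hh hU a fun t ht => hh_out hU hb ht, ← BF_hh hU b fun t ht => hh_out hU ha ht,
    BF_comm hQ]

lemma rho_comm (a b : V) : rho Q U a b = rho Q U b a := mul_comm _ _

lemma rho_self (hU : PD Q U) (a : V) : rho Q U a a = 1 := by simp [rho, hh_self hU]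

lemma rho_nonneg (hQ : ZM Q) (hU : PD Q U) (a b : V) : 0 ≤ rho Q U a b :=
  mul_nonneg (hh_nonneg hQ hU _ _) (hh_nonneg hQ hU _ _)

lemma rho_mul (hQ : ZM Q) (hU : PD Q U) {a b : V} (ha : a ∈ U) (hb : b ∈ U) :
    rho Q U a b * cc Q U a = hh Q U a b ^ 2 * cc Q U b := by
  rw [rho, mul_assoc, hh_symm hQ hU ha hb]
  ring

lemma rho_le_one (hQ : ZM Q) (hU : PD Q U) {a b : V} (ha : a ∈ U) (hb : b ∈ U) :
    rho Q U a b ≤ 1 := by
  have h1 := cc_le hQ hU b (y := hh Q U a) fun t ht => hh_out hU ha ht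
  rw [BF_hh_self hU] at h1
  have h2 := rho_mul hQ hU ha hb
  have h3 := cc_pos hU ha
  refine le_of_mul_le_mul_right ?_ h3
  rw [h2, one_mul, mul_comm]
  exact h1

lemma rho_mono (hQ : ZM Q) {U' : Finset V} (hU' : PD Q U') (h : U ⊆ U') (a b : V) :
    rho Q U a b ≤ rho Q U' a b :=
  mul_le_mul (hh_mono hQ hU' h a b) (hh_mono hQ hU' h b a) (hh_nonneg hQ (hU'.mono h) _ _)
    (hh_nonneg hQ hU' _ _)

/-- A multiple of one hitting function lies below another one. -/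
lemma hh_tri (hQ : ZM Q) (hU : PD Q U) {a b : V} (ha : a ∈ U) (hb : b ∈ U) (c : V) :
    hh Q U a b * hh Q U b c ≤ hh Q U a c := by
  have hout : ∀ t, t ∉ (U.erase a).erase b → (hh Q U a b • hh Q U b - hh Q U a) t ≤ 0 := by
    intro t ht
    simp only [Pi.sub_apply, Pi.smul_apply, smul_eq_mul]
    by_cases h1 : t = b
    · rw [h1, hh_self hU]; simp
    by_cases h2 : t = a
    · rw [h2, hh_self hU]
      have := rho_le_one hQ hU ha hb
      unfold rho at this
      linarith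
    have h3 : t ∉ U := fun h => ht (mem_erase.2 ⟨h1, mem_erase.2 ⟨h2, h⟩⟩)
    simp [hh_out hU ha h3, hh_out hU hb h3]
  have key : (hh Q U a b • hh Q U b - hh Q U a) c ≤ 0 := by
    by_cases hc : c ∈ (U.erase a).erase b
    · refine maxp hQ (hU.mono ((erase_subset _ _).trans (erase_subset _ _))) (fun t ht => ?_)
        (fun t ht _ => hout t ht) c hc
      obtain ⟨h1, h2⟩ := mem_erase.1 ht
      obtain ⟨h2, h3⟩ := mem_erase.1 h2
      simp [mulVec_sub, mulVec_smul, hh_harm hU a h3 h2, hh_harm hU b h3 h1]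
    · exact hout c hc
  simpa using key

lemma rho_tri (hQ : ZM Q) (hU : PD Q U) {a b c : V} (ha : a ∈ U) (hb : b ∈ U) (hc : c ∈ U) :
    rho Q U a b * rho Q U b c ≤ rho Q U a c := by
  have h1 := hh_tri hQ hU ha hb c
  have h2 := hh_tri hQ hU hc hb a
  have := mul_le_mul h1 h2 (mul_nonneg (hh_nonneg hQ hU _ _) (hh_nonneg hQ hU _ _))
    (hh_nonneg hQ hU _ _)
  unfold rho
  linarith

lemma edge_le (hQ : ZM Q) (hU : PD Q U) {a b : V} (ha : a ∈ U) (hb : b ∈ U) (hab : a ≠ b) :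
    -Q a b * (1 - rho Q U a b) ≤ hh Q U b a * cc Q U a := by
  set g : V → ℝ := hh Q U b a • hh Q U a - hh Q U b with hg
  have hg0 : ∀ t, g t ≤ 0 := fun t => by
    have := hh_tri hQ hU hb ha t
    simp only [hg, Pi.sub_apply, Pi.smul_apply, smul_eq_mul]
    linarith
  have hga : g a = 0 := by simp [hg, hh_self hU]
  have hgb : g b = rho Q U a b - 1 := by simp [hg, hh_self hU, rho, mul_comm]
  have h1 : (Q *ᵥ g) a = hh Q U b a * cc Q U a := by
    simp [hg, mulVec_sub, mulVec_smul, hh_harm hU b ha hab, hh_cap]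
  rw [← h1, mulVec_eq, ← add_sum_erase _ _ (mem_univ b), hgb]
  have h2 : 0 ≤ ∑ t ∈ univ.erase b, Q a t * g t := by
    refine sum_nonneg fun t _ => ?_
    by_cases hta : a = t
    · rw [← hta, hga, mul_zero]
    · exact mul_nonneg_of_nonpos_of_nonpos (hQ.off a t hta) (hg0 t)
  linarith

lemma edge_sq (hQ : ZM Q) (hU : PD Q U) {a b : V} (ha : a ∈ U) (hb : b ∈ U) (hab : a ≠ b) :
    (Q a b * (1 - rho Q U a b)) ^ 2 ≤ rho Q U a b * (cc Q U a * cc Q U b) := by
  have h1 := edge_le hQ hU ha hb hab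
  have h2 := edge_le hQ hU hb ha hab.symm
  rw [hQ.symm b a, rho_comm b a] at h2
  have h3 : 0 ≤ -Q a b * (1 - rho Q U a b) :=
    mul_nonneg (neg_nonneg.2 (hQ.off a b hab)) (sub_nonneg.2 (rho_le_one hQ hU ha hb))
  have := mul_le_mul h1 h2 h3 (h3.trans h1)
  unfold rho at this ⊢
  nlinarith

/-- The logarithmic form of the edge inequality. -/
lemma log_sq {T r w : ℝ} (h0 : 0 < r) (h1 : r ≤ 1) (h : (T * (1 - r)) ^ 2 ≤ r * w) :
    (T * Real.log r ^ 2) ^ 2 ≤ 64 * w := by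
  set t := -Real.log r / 2 with ht
  have ht0 : 0 ≤ t := by
    have := Real.log_nonpos h0.le h1
    rw [ht]; linarith
  set E := Real.exp t with hE
  have hE1 : 1 + t + t ^ 2 / 2 ≤ E := Real.quadratic_le_exp_of_nonneg ht0
  have hEr : E ^ 2 * r = 1 := by
    have h2 : E ^ 2 = r⁻¹ := by
      rw [hE, ← Real.exp_nat_mul, ← Real.exp_log (inv_pos.2 h0), Real.log_inv, ht]
      congr 1
      push_cast
      ring
    rw [h2, inv_mul_cancel₀ h0.ne']
  have hlog : Real.log r ^ 2 = 4 * t ^ 2 := by rw [ht]; ring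
  have hE0 : 1 ≤ E := by nlinarith
  have h2 : t ^ 2 / 2 ≤ E * (1 - r) := by
    have h3 : E * r ≤ 1 := by nlinarith
    nlinarith
  have h4 : (t ^ 2 / 2) ^ 2 ≤ (E * (1 - r)) ^ 2 := pow_le_pow_left₀ (by positivity) h2 2
  have h5 : (T * (1 - r)) ^ 2 * E ^ 2 ≤ r * w * E ^ 2 :=
    mul_le_mul_of_nonneg_right h (by positivity)
  have h6 : r * w * E ^ 2 = w := by rw [mul_comm r w, mul_assoc, mul_comm r, hEr, mul_one]
  have h7 : T ^ 2 * (t ^ 2 / 2) ^ 2 ≤ T ^ 2 * (E * (1 - r)) ^ 2 :=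
    mul_le_mul_of_nonneg_left h4 (sq_nonneg _)
  rw [hlog]
  nlinarith

/-- An edge has positive correlation and a controlled logarithm. -/
lemma edge_log (hQ : ZM Q) (hU : PD Q U) {a b : V} (ha : a ∈ U) (hb : b ∈ U) (hab : a ≠ b)
    (h0 : Q a b ≠ 0) : 0 < rho Q U a b ∧
      (Q a b * Real.log (rho Q U a b) ^ 2) ^ 2 ≤ 64 * (cc Q U a * cc Q U b) := by
  have h1 := edge_sq hQ hU ha hb hab
  have h2 : 0 < rho Q U a b := by
    refine (rho_nonneg hQ hU a b).lt_of_ne fun h => ?_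
    rw [← h] at h1
    have : 0 < Q a b ^ 2 := by positivity
    nlinarith
  exact ⟨h2, log_sq h2 (rho_le_one hQ hU ha hb) h1⟩

end Pool.Agent.P.MP_1ec91f_co.Sq
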