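import Pool.Agent.P.MP_1ec91f_co.Sq.Mass

/-!
The cut-off function around a point: it is supported in a small set and it is Lipschitz for the
edge lengths given by the self-consistent mass.
-/

open Finset Matrix

namespace Pool.Agent.P.MP_1ec91f_co.Sq

variable {V : Type*} [Fintype V] [DecidableEq V] {P : Matrix V V ℝ} {u : V → ℝ}

/-- Few points are well correlated with a given point. -/
lemma card_corr_le (hP : ZM P) (hu : ∀ t, 0 ≤ u t) {U S : Finset V} (hU : PD P U) (hSU : S ⊆ U)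
    {v : V} (hv : v ∈ U) {τ ε : ℝ} (hτ : 0 ≤ τ) (hw : ∀ x ∈ S, τ * cc (P + diagonal u) U x ≤ u x)
    (hS : ∀ x ∈ S, ε ≤ rho (P + diagonal u) U v x) : S.card * (τ * ε) ≤ 1 := by
  have hQ : ZM (P + diagonal u) := ZM_mass hP
  have hU' : PD (P + diagonal u) U := PD_mass hU hu
  have hc := cc_pos hU' hv
  have h1 : ∀ x ∈ S, τ * ε * cc (P + diagonal u) U v
      ≤ u x * hh (P + diagonal u) U v x ^ 2 := fun x hx => by
    have h2 := rho_mul hQ hU' hv (hSU hx)
    have h3 := mul_le_mul_of_nonneg_right (hS x hx) hc.le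
    have h4 := mul_le_mul_of_nonneg_right (hw x hx) (sq_nonneg (hh (P + diagonal u) U v x))
    have h5 := mul_le_mul_of_nonneg_left h3 hτ
    rw [h2] at h5
    linarith
  have h2 := sum_le_sum h1
  have h3 : ∑ x ∈ S, u x * hh (P + diagonal u) U v x ^ 2
      ≤ ∑ x, u x * hh (P + diagonal u) U v x ^ 2 :=
    sum_le_sum_of_subset_of_nonneg (subset_univ _) fun t _ _ => mul_nonneg (hu t) (sq_nonneg _)
  have h4 := BF_hh_self hU' v
  rw [BF_mass] at h4
  have h5 := hU.nonneg (x := hh (P + diagonal u) U v) fun t ht => hh_out hU' hv ht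
  rw [sum_const, nsmul_eq_mul] at h2
  refine le_of_mul_le_mul_right ?_ hc
  linarith

/-- Existence of the cut-off function. -/
lemma exists_cut (hP : ZM P) {s : ℕ} (hPD : ∀ U : Finset V, U.card ≤ s * s → PD P U)
    (hu : ∀ t, 0 ≤ u t) {N : V → Finset V} (hN : ∀ x, x ∈ N x ∧ (N x).card ≤ s) {τ R : ℝ}
    (hτ : 0 < τ) (hR : 0 < R) (hw : ∀ x, u x = τ * cc (P + diagonal u) (N x) x)
    (hs : Real.exp R < τ * s) (v : V) :
    ∃ (S : Finset V) (χ : V → ℝ), v ∈ S ∧ S.card ≤ s ∧ χ v = 1 ∧ (∀ t, t ∉ S → χ t = 0) ∧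
      (∀ t, χ t ^ 2 ≤ 1) ∧ ∀ a b, a ≠ b → (P a b * ((χ a - χ b) * R) ^ 2) ^ 2
        ≤ 64 * (cc (P + diagonal u) (N a) a * cc (P + diagonal u) (N b) b) := by
  set Q := P + diagonal u with hQdef
  have hQ : ZM Q := ZM_mass hP
  have hs1 : 1 ≤ s := card_pos.2 ⟨v, (hN v).1⟩ |>.trans_le (hN v).2
  have hPD' : ∀ S : Finset V, S.card ≤ s → PD P (S.biUnion N) := fun S hS =>
    hPD _ ((card_biUnion_le_card_mul _ _ s fun x _ => (hN x).2).trans (Nat.mul_le_mul_right _ hS))
  have hQD : ∀ S : Finset V, S.card ≤ s → PD Q (S.biUnion N) := fun S hS => PD_mass (hPD' S hS) hu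
  have hsub : ∀ S : Finset V, S ⊆ S.biUnion N := fun S x hx => mem_biUnion.2 ⟨x, hx, (hN x).1⟩
  have hcc : ∀ S : Finset V, S.card ≤ s → ∀ x ∈ S, cc Q (S.biUnion N) x ≤ cc Q (N x) x :=
    fun S hS x hx => cc_anti hQ (hQD S hS) (subset_biUnion_of_mem N hx) x
  have hw0 : ∀ x, 0 < cc Q (N x) x := fun x =>
    cc_pos (PD_mass (hPD _ ((hN x).2.trans (Nat.le_mul_self s))) hu) (hN x).1
  have hedge : ∀ S : Finset V, S.card ≤ s → ∀ a ∈ S, ∀ b ∈ S, a ≠ b → P a b ≠ 0 →
      0 < rho Q (S.biUnion N) a b ∧ ∀ y : ℝ, y ^ 2 ≤ Real.log (rho Q (S.biUnion N) a b) ^ 2 →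
        (P a b * y ^ 2) ^ 2 ≤ 64 * (cc Q (N a) a * cc Q (N b) b) := by
    intro S hS a ha b hb hab h0
    obtain ⟨h1, h2⟩ := edge_log hQ (hQD S hS) (hsub S ha) (hsub S hb) hab
      (by rwa [hQdef, mass_off hab])
    refine ⟨h1, fun y hy => ?_⟩
    rw [hQdef, mass_off hab, ← hQdef] at h2
    have h3 := mul_le_mul (hcc S hS a ha) (hcc S hS b hb) (cc_pos (hQD S hS) (hsub S hb)).le
      (hw0 a).le
    have h4 := mul_le_mul_of_nonneg_left (pow_le_pow_left₀ (sq_nonneg _) hy 2) (sq_nonneg (P a b))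
    rw [mul_pow] at h2 ⊢
    linarith
  let F : Finset (Finset V) := univ.filter fun S => v ∈ S ∧ S.card ≤ s ∧
    ∀ x ∈ S, Real.exp (-R) ≤ rho Q (S.biUnion N) v x
  have hF : F.Nonempty := ⟨{v}, mem_filter.2 ⟨mem_univ _, mem_singleton_self v, by simpa using hs1,
    fun x hx => by
      rw [mem_singleton.1 hx, rho_self (hQD _ (by simpa using hs1))]
      exact Real.exp_le_one_iff.2 (by linarith)⟩⟩
  obtain ⟨S, hS, hmax⟩ := exists_max_image F card hF
  obtain ⟨-, hv, hS1, hS2⟩ := mem_filter.1 hS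
  have hlt : S.card < s := by
    have h1 := card_corr_le hP hu (hPD' S hS1) (hsub S) (hsub S hv) hτ.le (fun x hx => by
      rw [hw x]
      exact mul_le_mul_of_nonneg_left (hcc S hS1 x hx) hτ.le) hS2
    have h2 : Real.exp (-R) * Real.exp R = 1 := by rw [← Real.exp_add]; simp
    have h3 := mul_lt_mul_of_pos_left hs (Real.exp_pos (-R))
    have h4 : (S.card : ℝ) * (τ * Real.exp (-R)) < s * (τ * Real.exp (-R)) := by linarith
    exact_mod_cast lt_of_mul_lt_mul_right h4 (by positivity)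
  have hpos : ∀ x ∈ S, 0 < rho Q (S.biUnion N) v x := fun x hx =>
    (Real.exp_pos _).trans_le (hS2 x hx)
  have hlog : ∀ x ∈ S, -R ≤ Real.log (rho Q (S.biUnion N) v x) ∧
      Real.log (rho Q (S.biUnion N) v x) ≤ 0 := fun x hx =>
    ⟨(Real.le_log_iff_exp_le (hpos x hx)).2 (hS2 x hx),
      Real.log_nonpos (hpos x hx).le (rho_le_one hQ (hQD S hS1) (hsub S hv) (hsub S hx))⟩
  let χ : V → ℝ := fun t => if t ∈ S then 1 + Real.log (rho Q (S.biUnion N) v t) / R else 0
  have hχ : ∀ t ∈ S, χ t * R = R + Real.log (rho Q (S.biUnion N) v t) := fun t ht => by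
    simp only [χ, ht, if_true]
    field_simp
  have hχ0 : ∀ t, t ∉ S → χ t = 0 := fun t ht => if_neg ht
  have hbd : ∀ a ∈ S, ∀ b, b ∉ S → (P a b * (χ a * R) ^ 2) ^ 2
      ≤ 64 * (cc Q (N a) a * cc Q (N b) b) := by
    intro a ha b hb
    by_cases h0 : P a b = 0
    · have := mul_pos (hw0 a) (hw0 b)
      simp only [h0, zero_mul, ne_eq, OfNat.ofNat_ne_zero, not_false_eq_true, zero_pow]
      linarith
    have hab : a ≠ b := fun h => hb (h ▸ ha)
    have hc : (insert b S).card ≤ s := by rw [card_insert_of_notMem hb]; omega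
    have hmono : ∀ x, rho Q (S.biUnion N) v x ≤ rho Q ((insert b S).biUnion N) v x := fun x =>
      rho_mono hQ (hQD _ hc) (biUnion_subset_biUnion_of_subset_left _ (subset_insert _ _)) v x
    obtain ⟨h1, h2⟩ := hedge _ hc a (mem_insert_of_mem ha) b (mem_insert_self _ _) hab h0
    have h3 : rho Q ((insert b S).biUnion N) v b < Real.exp (-R) := by
      by_contra hcon
      have := hmax (insert b S) (mem_filter.2 ⟨mem_univ _, mem_insert_of_mem hv, hc, fun x hx => by
        rcases mem_insert.1 hx with rfl | hx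
        · exact not_lt.1 hcon
        · exact (hS2 x hx).trans (hmono x)⟩)
      rw [card_insert_of_notMem hb] at this
      omega
    have h4 := rho_tri hQ (hQD _ hc) (hsub _ (mem_insert_of_mem hv))
      (hsub _ (mem_insert_of_mem ha)) (hsub _ (mem_insert_self b S))
    have h5 := ((mul_le_mul_of_nonneg_right (hmono a) h1.le).trans h4).trans h3.le
    have h6 := Real.log_le_log (mul_pos (hpos a ha) h1) h5
    rw [Real.log_mul (hpos a ha).ne' h1.ne', Real.log_exp] at h6
    refine h2 _ ?_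
    rw [hχ a ha, ← neg_sq (Real.log _)]
    exact pow_le_pow_left₀ (by linarith [(hlog a ha).1]) (by linarith) 2
  refine ⟨S, χ, hv, hS1, ?_, hχ0, fun t => ?_, fun a b hab => ?_⟩
  · simp [χ, hv, rho_self (hQD S hS1)]
  · by_cases ht : t ∈ S
    · have h1 := hχ t ht
      have h2 := hlog t ht
      have h3 : χ t ≤ 1 := le_of_mul_le_mul_right (by linarith) hR
      have h4 : 0 ≤ χ t := le_of_mul_le_mul_right (by linarith) hR
      nlinarith
    · simp [hχ0 t ht]
  · by_cases ha : a ∈ S <;> by_cases hb : b ∈ S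
    · by_cases h0 : P a b = 0
      · have := mul_pos (hw0 a) (hw0 b)
        simp only [h0, zero_mul, ne_eq, OfNat.ofNat_ne_zero, not_false_eq_true, zero_pow]
        linarith
      obtain ⟨h1, h2⟩ := hedge S hS1 a ha b hb hab h0
      have h3 := Real.log_le_log (mul_pos (hpos a ha) h1)
        (rho_tri hQ (hQD S hS1) (hsub _ hv) (hsub _ ha) (hsub _ hb))
      have h4 := rho_tri hQ (hQD S hS1) (hsub _ hv) (hsub _ hb) (hsub _ ha)
      rw [rho_comm b a] at h4
      have h5 := Real.log_le_log (mul_pos (hpos b hb) h1) h4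
      rw [Real.log_mul (hpos a ha).ne' h1.ne'] at h3
      rw [Real.log_mul (hpos b hb).ne' h1.ne'] at h5
      refine h2 _ ?_
      rw [sub_mul, hχ a ha, hχ b hb, ← neg_sq (Real.log _)]
      exact sq_le_sq' (by linarith) (by linarith)
    · rw [hχ0 b hb, sub_zero]
      exact hbd a ha b hb
    · rw [hχ0 a ha, zero_sub, neg_mul, neg_sq, hP.symm a b, mul_comm (cc Q (N a) a)]
      exact hbd b hb a ha
    · have := mul_pos (hw0 a) (hw0 b)
      simp only [hχ0 a ha, hχ0 b hb, sub_self, zero_mul, ne_eq, OfNat.ofNat_ne_zero,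
        not_false_eq_true, zero_pow, mul_zero]
      linarith

end Pool.Agent.P.MP_1ec91f_co.Sq
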