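import Pool.Agent.P.MP_1ec91f_co.Sq.Cut
import Pool.Agent.P.MP_1ec91f_co.Upper

/-!
The bound `n / log² n` on the multiplicity of the second eigenvalue.
-/

open Finset Matrix Module

namespace Pool.Agent.P.MP_1ec91f_co.Sq

variable {V : Type*} [Fintype V] [DecidableEq V] {G : SimpleGraph V} {P : Matrix V V ℝ}

/-- Sets that are small compared with the kernel are positive definite. -/
lemma small_PD [DecidableRel G.Adj] (hG : G.Connected) {Δ : ℕ} (hΔ : G.maxDegree ≤ Δ)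
    (hP : ZM P) (hloc : ∀ s t, P s t ≠ 0 → s = t ∨ G.Adj s t)
    (hadj : ∀ s t, G.Adj s t → P s t < 0) {a : V → ℝ} (ha : ∀ x, a ⬝ᵥ x = 0 → 0 ≤ BF P x x)
    {U : Finset V} (hU : U.card * (Δ + 1) ^ 3 < finrank ℝ (LinearMap.ker P.mulVecLin)) :
    PD P U := by
  classical
  by_contra hcon
  let B : Finset V := U.biUnion fun v => univ.filter fun t => G.dist v t ≤ 3
  have hB : B.card ≤ U.card * (Δ + 1) ^ 3 :=
    card_biUnion_le_card_mul _ _ _ fun v _ => card_ball_le hG hΔ v 3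
  have hmem : ∀ v ∈ U, ∀ t, G.dist v t ≤ 3 → t ∈ B := fun v hv t ht =>
    mem_biUnion.2 ⟨v, hv, mem_filter.2 ⟨mem_univ _, ht⟩⟩
  obtain ⟨W, hW, hdim⟩ := finrank_le_add (LinearMap.ker P.mulVecLin) B
  have hW0 : W ≠ ⊥ := fun h => by
    rw [h, finrank_bot] at hdim
    omega
  obtain ⟨f, hf, hf0⟩ := (Submodule.ne_bot_iff W).1 hW0
  obtain ⟨hf1, hf2⟩ := hW f hf
  have hf3 : P *ᵥ f = 0 := LinearMap.mem_ker.1 hf1
  let T : Finset V := univ.filter fun t => f t ≠ 0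
  have hT : ¬ PD P T := fun h => by
    have := h f (fun t ht => by simpa [T] using ht) hf0
    simp [BF, hf3] at this
  have hTB : ∀ t ∈ T, t ∉ B := fun t ht h => (mem_filter.1 ht).2 (hf2 t h)
  obtain ⟨t₀, ht₀⟩ := Function.ne_iff.1 hf0
  have ht₁ : t₀ ∈ T := mem_filter.2 ⟨mem_univ _, ht₀⟩
  obtain ⟨v₀, hv₀⟩ : U.Nonempty := by
    rw [nonempty_iff_ne_empty]
    rintro rfl
    exact hcon fun x hx h0 => absurd (funext fun t => hx t (notMem_empty t)) h0
  obtain ⟨x, hx1, hx2⟩ := exists_neg hG hP hadj hcon (w := t₀) fun h =>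
    hTB _ ht₁ (hmem _ h _ (by simp))
  obtain ⟨y, hy1, hy2⟩ := exists_neg hG hP hadj hT (w := v₀) fun h =>
    hTB _ h (hmem _ hv₀ _ (by simp))
  refine two_neg (BF_comm hP) ha hx1 hy1 ?_
  rw [BF_eq]
  refine sum_eq_zero fun s _ => ?_
  rw [mulVec_eq, mul_sum]
  refine sum_eq_zero fun t _ => ?_
  by_contra hne
  simp only [mul_eq_zero, not_or] at hne
  obtain ⟨v, hv, h1⟩ : ∃ v ∈ U, v = s ∨ G.Adj v s := by
    rcases hx2 s hne.1 with h | ⟨v, hv, h⟩
    · exact ⟨s, h, Or.inl rfl⟩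
    · exact ⟨v, hv, Or.inr h⟩
  obtain ⟨z, hz, h2⟩ : ∃ z ∈ T, t = z ∨ G.Adj t z := by
    rcases hy2 t hne.2.2 with h | ⟨z, hz, h⟩
    · exact ⟨t, h, Or.inl rfl⟩
    · exact ⟨z, hz, Or.inr h.symm⟩
  have h3 := dist_le_succ hG v h1
  have h4 := dist_le_succ hG v (hloc s t hne.2.1)
  have h5 := dist_le_succ hG v h2
  rw [SimpleGraph.dist_self] at h3
  exact hTB z hz (hmem v hv z (by omega))

omit [DecidableEq V] in
/-- The energy of a kernel vector after a cut-off. -/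
lemma BF_cut (hP : ZM P) {f : V → ℝ} (hf : P *ᵥ f = 0) (χ : V → ℝ) :
    2 * BF P (fun t => χ t * f t) (fun t => χ t * f t)
      = ∑ a, ∑ b, -(P a b * (χ a - χ b) ^ 2 * (f a * f b)) := by
  have h1 : ∑ a, ∑ b, χ a ^ 2 * f a * (P a b * f b) = 0 := by
    refine sum_eq_zero fun a _ => ?_
    rw [← mul_sum, ← mulVec_eq, hf, Pi.zero_apply, mul_zero]
  have h2 : ∑ a, ∑ b, χ b ^ 2 * f b * (P b a * f a) = 0 := by rw [sum_comm, h1]
  rw [BF_eq, ← sub_zero (2 * _), ← h1, ← sub_zero (2 * _ - _), ← h2]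
  simp only [mulVec_eq, mul_sum, ← sum_sub_distrib]
  refine sum_congr rfl fun a _ => sum_congr rfl fun b _ => ?_
  rw [hP.symm b a]
  ring

lemma amgm {X p q y z : ℝ} (hp : 0 ≤ p) (hq : 0 ≤ q) (h : X ^ 2 ≤ 64 * (p * q)) :
    -(X * (y * z)) ≤ 4 * (p * y ^ 2 + q * z ^ 2) := by
  refine (neg_le_abs _).trans (abs_le_of_sq_le_sq ?_ (by positivity))
  have h1 := mul_le_mul_of_nonneg_right h (sq_nonneg (y * z))
  rw [mul_pow]
  nlinarith [sq_nonneg (p * y ^ 2 - q * z ^ 2)]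

/-- The bound on the dimension of the kernel. -/
lemma finrank_le [DecidableRel G.Adj] {Δ : ℕ} (hΔ : G.maxDegree ≤ Δ) (hP : ZM P)
    (hloc : ∀ s t, P s t ≠ 0 → s = t ∨ G.Adj s t) {s : ℕ}
    (hPD : ∀ U : Finset V, U.card ≤ s * s → PD P U) {τ R : ℝ} (h0 : 0 < τ) (h1 : τ < 1)
    (hR : 0 < R) (hs : Real.exp R < τ * s) :
    (finrank ℝ (LinearMap.ker P.mulVecLin) : ℝ) ≤ (4 * Δ / R ^ 2 + τ) * Fintype.card V := by
  have hs1 : 1 ≤ s := by
    rw [Nat.one_le_iff_ne_zero]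
    rintro rfl
    simpa using (Real.exp_pos R).trans hs
  have hPD1 : ∀ U : Finset V, U.card ≤ s → PD P U := fun U hU =>
    hPD U (hU.trans (Nat.le_mul_self s))
  obtain ⟨u, N, hu, hN, hw, hmin⟩ := exists_mass hP hs1 hPD1 h0 h1
  set w : V → ℝ := fun x => cc (P + diagonal u) (N x) x with hwdef
  have hw0 : ∀ x, 0 < w x := fun x => cc_pos (PD_mass (hPD1 _ (hN x).2) hu) (hN x).1
  refine finrank_le_of_deloc _ w hw0 (by positivity) fun f hf v => ?_
  have hf' : P *ᵥ f = 0 := LinearMap.mem_ker.1 hf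
  obtain ⟨S, χ, hv, hS, hχ1, hχ0, hχ2, hχ3⟩ := exists_cut hP hPD hu hN h0 hR hw hs v
  have e1 := cc_le (ZM_mass hP) (PD_mass (hPD1 S hS) hu) v (y := fun t => χ t * f t)
    fun t ht => by simp [hχ0 t ht]
  rw [hχ1, one_mul, BF_mass] at e1
  have e2 := mul_le_mul_of_nonneg_right (hmin v S hv hS) (sq_nonneg (f v))
  have e3 : ∑ t, u t * (χ t * f t) ^ 2 ≤ τ * ∑ t, w t * f t ^ 2 := by
    rw [mul_sum]
    refine sum_le_sum fun t _ => ?_
    have := mul_le_mul_of_nonneg_left (hχ2 t) (mul_nonneg (hu t) (sq_nonneg (f t)))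
    have h2 : u t = τ * w t := hw t
    rw [← mul_assoc, ← h2]
    nlinarith
  have e4 : ∀ a b, -(P a b * (χ a - χ b) ^ 2 * (f a * f b)) * R ^ 2
      ≤ 4 * ((if G.Adj a b then w a * f a ^ 2 else 0)
        + (if G.Adj b a then w b * f b ^ 2 else 0)) := by
    intro a b
    by_cases hab : G.Adj a b
    · have := amgm (y := f a) (z := f b) (hw0 a).le (hw0 b).le (hχ3 a b hab.ne)
      rw [if_pos hab, if_pos hab.symm]
      linarith
    · rw [if_neg hab, if_neg fun h => hab h.symm]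
      by_cases h : a = b
      · simp [h]
      · have : P a b = 0 := by
          by_contra h2
          exact (hloc a b h2).elim h hab
        simp [this]
  have e5 : ∑ a, ∑ b, (if G.Adj a b then w a * f a ^ 2 else 0) ≤ Δ * ∑ t, w t * f t ^ 2 := by
    rw [mul_sum]
    refine sum_le_sum fun a _ => ?_
    rw [← sum_filter, sum_const, nsmul_eq_mul]
    refine mul_le_mul_of_nonneg_right ?_ (mul_nonneg (hw0 a).le (sq_nonneg _))
    have h2 := (G.degree_le_maxDegree a).trans hΔ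
    rw [← G.card_neighborFinset_eq_degree, G.neighborFinset_eq_filter] at h2
    exact_mod_cast h2
  have e6 : ∑ a, ∑ b, (if G.Adj b a then w b * f b ^ 2 else 0) ≤ Δ * ∑ t, w t * f t ^ 2 := by
    rwa [sum_comm]
  have e7 := sum_le_sum fun a (_ : a ∈ univ) => sum_le_sum fun b (_ : b ∈ univ) => e4 a b
  simp only [← sum_mul, ← mul_sum, sum_add_distrib] at e7
  rw [← BF_cut hP hf'] at e7
  have e8 : BF P (fun t => χ t * f t) (fun t => χ t * f t)
      ≤ 4 * Δ / R ^ 2 * ∑ t, w t * f t ^ 2 := by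
    rw [div_mul_eq_mul_div, le_div_iff₀ (by positivity)]
    linarith
  rw [add_mul]
  linarith

/-- The explicit upper bound. -/
theorem mult_le [DecidableRel G.Adj] (hG : G.Connected) {Δ : ℕ} (hΔ : G.maxDegree ≤ Δ)
    (D : V → ℝ) (hM : (diagonal D + G.adjMatrix ℝ).IsHermitian) (j : Fin (Fintype.card V))
    (hj : (j : ℕ) = 1) {s : ℕ} {τ R : ℝ} (h0 : 0 < τ) (h1 : τ < 1) (hR : 0 < R)
    (hs : Real.exp R < τ * s) (hm : s * s * (Δ + 1) ^ 3
      < (univ.filter fun i => hM.eigenvalues₀ i = hM.eigenvalues₀ j).card) :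
    ((univ.filter fun i => hM.eigenvalues₀ i = hM.eigenvalues₀ j).card : ℝ)
      ≤ (4 * Δ / R ^ 2 + τ) * Fintype.card V := by
  rw [← finrank_ker_shift] at hm ⊢
  obtain ⟨a, ha⟩ := exists_hyperplane hM j hj
  set P := hM.eigenvalues₀ j • (1 : Matrix V V ℝ) - (diagonal D + G.adjMatrix ℝ) with hPdef
  have hent : ∀ s t, s ≠ t → P s t = -(if G.Adj s t then 1 else 0) := fun s t hst => by
    simp [hPdef, hst, SimpleGraph.adjMatrix_apply]
  have hP : ZM P := by
    refine ⟨fun s t => ?_, fun s t hst => ?_⟩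
    · by_cases hst : s = t
      · rw [hst]
      · rw [hent s t hst, hent t s (Ne.symm hst)]
        simp only [G.adj_comm]
    · rw [hent s t hst]
      split_ifs <;> norm_num
  have hloc : ∀ s t, P s t ≠ 0 → s = t ∨ G.Adj s t := by
    intro s t h
    by_contra hc
    push Not at hc
    exact h (by simp [hent s t hc.1, hc.2])
  have hadj : ∀ s t, G.Adj s t → P s t < 0 := fun s t h => by simp [hent s t h.ne, h]
  exact finrank_le hΔ hP hloc (fun U hU => small_PD hG hΔ hP hloc hadj ha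
    ((Nat.mul_le_mul_right _ hU).trans_lt hm)) h0 h1 hR hs

/-- The choice of parameters. -/
lemma asymp (Δ : ℕ) : ∃ N : ℕ, ∀ n : ℕ, N ≤ n → 1 < Real.log n ∧ ∃ s : ℕ,
    Real.exp (Real.log n / 4) < 1 / Real.log n ^ 2 * s ∧
      ((s * s * (Δ + 1) ^ 3 : ℕ) : ℝ) ≤ n / Real.log n ^ 2 := by
  have h1 : Filter.Tendsto (fun n : ℕ => Real.log n) Filter.atTop Filter.atTop :=
    Real.tendsto_log_atTop.comp tendsto_natCast_atTop_atTop
  obtain ⟨N, hN⟩ := Filter.eventually_atTop.1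
    (h1.eventually_ge_atTop (4 * 128 * 5040 * ((Δ : ℝ) + 1) ^ 3))
  refine ⟨N, fun n hn => ?_⟩
  have h2 := hN n hn
  set L := Real.log n with hL
  have h3 : (1 : ℝ) ≤ (Δ + 1) ^ 3 := one_le_pow₀ (by linarith [Nat.cast_nonneg (α := ℝ) Δ])
  have hL1 : 1 < L := by linarith
  have hL0 : 0 < L := by linarith
  have hn1 : (0 : ℝ) < n := by
    rcases Nat.eq_zero_or_pos n with h | h
    · simp [hL, h] at hL0
    · exact_mod_cast h
  set E := Real.exp (L / 4) with hE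
  have hE1 : 1 ≤ E := Real.one_le_exp (by positivity)
  have hE4 : E ^ 4 = n := by
    rw [hE, ← Real.exp_nat_mul, ← Real.exp_log hn1]
    congr 1
    push_cast
    ring
  have hE2 : (L / 2) ^ 7 / 5040 ≤ E ^ 2 := by
    have := Real.pow_div_factorial_le_exp (L / 2) (by positivity) 7
    rw [hE, ← Real.exp_nat_mul, show ((2 : ℕ) : ℝ) * (L / 4) = L / 2 by push_cast; ring]
    simpa [Nat.factorial] using this
  refine ⟨hL1, ⌊E * L ^ 2⌋₊ + 1, ?_, ?_⟩
  · rw [one_div, inv_mul_eq_div, lt_div_iff₀ (by positivity)]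
    push_cast
    exact Nat.lt_floor_add_one _
  · have h4 : ((⌊E * L ^ 2⌋₊ : ℝ) + 1) ≤ 2 * (E * L ^ 2) := by
      have h5 := Nat.floor_le (show 0 ≤ E * L ^ 2 by positivity)
      have h6 : 1 ≤ E * L ^ 2 := one_le_mul_of_one_le_of_one_le hE1 (one_le_pow₀ hL1.le)
      linarith
    have h5 := mul_le_mul h4 h4 (by positivity) (by positivity)
    have h6 : 4 * ((Δ : ℝ) + 1) ^ 3 * L ^ 6 ≤ E ^ 2 := by
      have := mul_le_mul_of_nonneg_right h2 (show 0 ≤ L ^ 6 by positivity)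
      refine le_trans ?_ hE2
      rw [le_div_iff₀ (by norm_num)]
      nlinarith
    have h7 := mul_le_mul_of_nonneg_right h6 (sq_nonneg E)
    have h8 := mul_le_mul_of_nonneg_right h5
      (show 0 ≤ ((Δ : ℝ) + 1) ^ 3 * L ^ 2 by positivity)
    rw [le_div_iff₀ (by positivity), ← hE4]
    push_cast
    nlinarith

theorem upper (Δ : ℕ) : ∃ N : ℕ, ∀ n : ℕ, N ≤ n →
    ∀ (G : SimpleGraph (Fin n)) [DecidableRel G.Adj], G.Connected → G.maxDegree ≤ Δ →
    ∀ (D : Fin n → ℝ) (hM : (diagonal D + G.adjMatrix ℝ).IsHermitian)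
      (j : Fin (Fintype.card (Fin n))), (j : ℕ) = 1 →
      ((univ.filter fun i => hM.eigenvalues₀ i = hM.eigenvalues₀ j).card : ℝ)
        ≤ (64 * Δ + 1) * (n / Real.log n ^ 2) := by
  obtain ⟨N, h⟩ := asymp Δ
  refine ⟨N, fun n hn G _ hG hΔ D hM j hj => ?_⟩
  obtain ⟨h1, s, h2, h3⟩ := h n hn
  have hL : 1 < Real.log n ^ 2 := one_lt_pow₀ h1 two_ne_zero
  by_cases hm : s * s * (Δ + 1) ^ 3
      < (univ.filter fun i => hM.eigenvalues₀ i = hM.eigenvalues₀ j).card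
  · have := mult_le hG hΔ D hM j hj (by positivity) ((div_lt_one (by linarith)).2 hL)
      (by linarith) h2 hm
    refine this.trans (le_of_eq ?_)
    rw [Fintype.card_fin]
    field_simp
    ring
  · have h4 : ((univ.filter fun i => hM.eigenvalues₀ i = hM.eigenvalues₀ j).card : ℝ)
        ≤ ((s * s * (Δ + 1) ^ 3 : ℕ) : ℝ) := by exact_mod_cast not_lt.1 hm
    refine (h4.trans h3).trans (le_mul_of_one_le_left (by positivity) ?_)
    linarith [Nat.cast_nonneg (α := ℝ) Δ]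

end Pool.Agent.P.MP_1ec91f_co.Sq
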