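import Pool.Agent.P.MP_1ec91f_co.Sq.Corr

/-!
A self-consistent mass: a fixed proportion of the least capacity among small sets, the capacities
being taken after the mass has been added to the diagonal.
-/

open Finset Matrix

namespace Pool.Agent.P.MP_1ec91f_co.Sq

variable {V : Type*} [Fintype V] [DecidableEq V] {P : Matrix V V ℝ} {U : Finset V} {u : V → ℝ}

lemma BF_mass (x : V → ℝ) : BF (P + diagonal u) x x = BF P x x + ∑ t, u t * x t ^ 2 := by
  unfold BF
  rw [add_mulVec, dotProduct_add]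
  congr 1
  simp only [dotProduct, mulVec_diagonal]
  exact sum_congr rfl fun t _ => by ring

omit [Fintype V] in
lemma mass_off {a b : V} (h : a ≠ b) : (P + diagonal u) a b = P a b := by simp [h]

omit [Fintype V] in
lemma ZM_mass (hP : ZM P) : ZM (P + diagonal u) := by
  refine ⟨fun s t => ?_, fun s t h => ?_⟩
  · by_cases h : s = t
    · rw [h]
    · rw [mass_off h, mass_off (Ne.symm h), hP.symm]
  · rw [mass_off h]
    exact hP.off s t h

lemma PD_mass (hU : PD P U) (hu : ∀ t, 0 ≤ u t) : PD (P + diagonal u) U := fun x hx h0 => by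
  rw [BF_mass]
  exact add_pos_of_pos_of_nonneg (hU x hx h0)
    (sum_nonneg fun t _ => mul_nonneg (hu t) (sq_nonneg _))

lemma cc_mass_mono (hP : ZM P) (hU : PD P U) (hu : ∀ t, 0 ≤ u t) {u' : V → ℝ}
    (h : ∀ t, u t ≤ u' t) {a : V} (ha : a ∈ U) :
    cc (P + diagonal u) U a ≤ cc (P + diagonal u') U a := by
  have hU' : PD (P + diagonal u') U := PD_mass hU fun t => (hu t).trans (h t)
  have h1 := cc_le (ZM_mass hP) (PD_mass hU hu) a (y := hh (P + diagonal u') U a)
    fun t ht => hh_out hU' ha ht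
  rw [hh_self hU', one_pow, mul_one] at h1
  refine h1.trans ?_
  rw [← BF_hh_self hU' a, BF_mass, BF_mass]
  exact add_le_add le_rfl (sum_le_sum fun t _ => mul_le_mul_of_nonneg_right (h t) (sq_nonneg _))

lemma cc_le_diag (hP : ZM P) (hU : PD P U) {a : V} (ha : a ∈ U) : cc P U a ≤ P a a := by
  have h1 := cc_le hP hU a (y := Pi.single a 1) fun t ht => by
    have : t ≠ a := fun h => ht (h ▸ ha)
    simp [this]
  simpa [BF] using h1

/-- The small sets containing a point. -/
def smallSets (s : ℕ) (x : V) : Finset (Finset V) := univ.filter fun U => x ∈ U ∧ U.card ≤ s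

lemma mem_smallSets {s : ℕ} {x : V} : U ∈ smallSets s x ↔ x ∈ U ∧ U.card ≤ s := by
  simp [smallSets]

lemma smallSets_nonempty {s : ℕ} (hs : 1 ≤ s) (x : V) : (smallSets s x).Nonempty :=
  ⟨{x}, mem_smallSets.2 ⟨mem_singleton_self x, by simpa using hs⟩⟩

/-- Existence of the self-consistent mass. -/
lemma exists_mass (hP : ZM P) {s : ℕ} (hs : 1 ≤ s) (hPD : ∀ U : Finset V, U.card ≤ s → PD P U)
    {τ : ℝ} (h0 : 0 < τ) (h1 : τ < 1) :
    ∃ (u : V → ℝ) (N : V → Finset V), (∀ x, 0 ≤ u x) ∧ (∀ x, x ∈ N x ∧ (N x).card ≤ s) ∧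
      (∀ x, u x = τ * cc (P + diagonal u) (N x) x) ∧
      ∀ x U, x ∈ U → U.card ≤ s → cc (P + diagonal u) (N x) x ≤ cc (P + diagonal u) U x := by
  let w : (V → ℝ) → V → ℝ := fun u x =>
    (smallSets s x).inf' (smallSets_nonempty hs x) fun U => cc (P + diagonal u) U x
  have hmin : ∀ u x, ∃ U ∈ smallSets s x, w u x = cc (P + diagonal u) U x := fun u x =>
    exists_mem_eq_inf' _ _
  have hle : ∀ u x, ∀ U ∈ smallSets s x, w u x ≤ cc (P + diagonal u) U x := fun u x U hU =>
    inf'_le _ hU
  have hdiag : ∀ x, 0 ≤ P x x := fun x => by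
    have hx : PD P {x} := hPD _ (by simpa using hs)
    exact (cc_pos hx (mem_singleton_self x)).le.trans (cc_le_diag hP hx (mem_singleton_self x))
  let B : V → ℝ := fun x => τ * P x x / (1 - τ)
  have hτ : 0 < 1 - τ := sub_pos.2 h1
  have : Fact ((0 : V → ℝ) ≤ B) := ⟨fun x => div_nonneg (mul_nonneg h0.le (hdiag x)) hτ.le⟩
  let F : Set.Icc (0 : V → ℝ) B →o Set.Icc (0 : V → ℝ) B :=
    { toFun := fun u => ⟨fun x => τ * w u x, fun x => by
          obtain ⟨U, hU, e⟩ := hmin u x
          rw [mem_smallSets] at hU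
          have := cc_pos (PD_mass (hPD U hU.2) u.2.1) hU.1
          simp only [Pi.zero_apply, e]
          positivity, fun x => by
          have hx : ({x} : Finset V) ∈ smallSets s x :=
            mem_smallSets.2 ⟨mem_singleton_self x, by simpa using hs⟩
          have h2 := (hle u x _ hx).trans (cc_le_diag (ZM_mass hP)
            (PD_mass (hPD _ (mem_smallSets.1 hx).2) u.2.1) (mem_singleton_self x))
          have h3 : u.1 x ≤ τ * P x x / (1 - τ) := u.2.2 x
          simp only [Matrix.add_apply, diagonal_apply_eq] at h2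
          change τ * w u x ≤ τ * P x x / (1 - τ)
          rw [le_div_iff₀ hτ] at h3 ⊢
          nlinarith [mul_le_mul_of_nonneg_left h2 (mul_pos h0 hτ).le,
            mul_le_mul_of_nonneg_left h3 h0.le]⟩
      monotone' := fun u u' h x => by
        obtain ⟨U, hU, e⟩ := hmin u' x
        refine mul_le_mul_of_nonneg_left ?_ h0.le
        rw [e]
        exact (hle u x U hU).trans (cc_mass_mono hP (hPD U (mem_smallSets.1 hU).2) u.2.1
          (fun t => h t) (mem_smallSets.1 hU).1) }
  have hfix := F.map_lfp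
  set u := F.lfp with hu
  choose N hN1 hN2 using hmin u
  refine ⟨u, N, u.2.1, fun x => mem_smallSets.1 (hN1 x), fun x => ?_, fun x U hx hU => ?_⟩
  · rw [← hN2]
    exact (congrFun (congrArg Subtype.val hfix) x).symm
  · rw [← hN2]
    exact hle u x U (mem_smallSets.2 ⟨hx, hU⟩)

end Pool.Agent.P.MP_1ec91f_co.Sq
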